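import Pool.Agent.W586.SK.Stm

/-! # Project SK, part TAIL -/

set_option autoImplicit false

namespace Pool.Agent.W58.SK

open MeasureTheory Set
open scoped ENNReal InnerProductSpace
open Pool.Agent.H212R2.KLS (mu Bdd)
open Pool.Agent.W586.SK

theorem nm_smul {n : ℕ} (l : ℝ) (hl : 0 ≤ l) (x : E n) : nm (l • x) = l * nm x := by
  unfold nm
  rw [Finset.mul_sum]
  refine Finset.sum_congr rfl fun j _ => ?_
  have : (l • x) j = l * x j := by simp
  rw [this, abs_mul, abs_of_nonneg hl]

theorem nm_meas {n : ℕ} : Measurable (nm : E n → ℝ) := by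
  have : Continuous (nm : E n → ℝ) := by
    unfold nm
    fun_prop
  exact this.measurable

theorem exp6 : Real.exp 6 ≤ 405 := by
  have h1 : Real.exp 1 < 2.7182818286 := Real.exp_one_lt_d9
  have h2 : Real.exp 6 = Real.exp 1 ^ 6 := by
    rw [← Real.exp_nat_mul]; norm_num
  rw [h2]
  calc Real.exp 1 ^ 6 ≤ (2.7182818286 : ℝ) ^ 6 :=
        pow_le_pow_left₀ (Real.exp_pos 1).le h1.le 6
    _ ≤ 405 := by norm_num

theorem step1 {n : ℕ} (hn : 1 ≤ n) (a q s : ℝ) (ha : 0 ≤ a) (hs : 0 < s)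
    (hq : 3 / 4 ≤ q * (2 * Real.exp 2 * Real.sqrt s) ^ n)
    (h : a * (2 * (540 * Real.sqrt s)) ^ n ≤ 1) :
    a * Real.exp (4 * n) ≤ q := by
  have hs' : 0 < Real.sqrt s := Real.sqrt_pos.2 hs
  set D : ℝ := (2 * Real.exp 2 * Real.sqrt s) ^ n with hD
  have hDpos : 0 < D := by positivity
  have key : 4 / 3 * D * Real.exp (4 * n) ≤ (2 * (540 * Real.sqrt s)) ^ n := by
    have e4 : Real.exp (4 * n) = Real.exp 4 ^ n := by
      rw [← Real.exp_nat_mul]; congr 1; ring
    have h43 : (4 / 3 : ℝ) ≤ (4 / 3) ^ n := by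
      calc (4 / 3 : ℝ) = (4 / 3) ^ 1 := by norm_num
        _ ≤ (4 / 3) ^ n := pow_le_pow_right₀ (by norm_num) hn
    calc 4 / 3 * D * Real.exp (4 * n) ≤ (4 / 3) ^ n * D * Real.exp (4 * n) := by
          gcongr
      _ = (4 / 3 * (2 * Real.exp 2 * Real.sqrt s) * Real.exp 4) ^ n := by
          rw [hD, e4, ← mul_pow, ← mul_pow]
      _ ≤ (2 * (540 * Real.sqrt s)) ^ n := by
          apply pow_le_pow_left₀ (by positivity)
          have e6 : Real.exp 2 * Real.exp 4 = Real.exp 6 := by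
            rw [← Real.exp_add]; norm_num
          calc 4 / 3 * (2 * Real.exp 2 * Real.sqrt s) * Real.exp 4
              = 8 / 3 * (Real.exp 2 * Real.exp 4) * Real.sqrt s := by ring
            _ = 8 / 3 * Real.exp 6 * Real.sqrt s := by rw [e6]
            _ ≤ 8 / 3 * 405 * Real.sqrt s := by
                have := exp6
                gcongr
            _ = 2 * (540 * Real.sqrt s) := by ring
  have h1 : a * (4 / 3 * D * Real.exp (4 * n)) ≤ 4 / 3 * D * q := by
    calc a * (4 / 3 * D * Real.exp (4 * n)) ≤ a * (2 * (540 * Real.sqrt s)) ^ n := by gcongr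
      _ ≤ 1 := h
      _ ≤ 4 / 3 * D * q := by nlinarith
  have h2 : 0 < 4 / 3 * D := by positivity
  have h3 : (4 / 3 * D) * (a * Real.exp (4 * n)) ≤ (4 / 3 * D) * q := by
    calc (4 / 3 * D) * (a * Real.exp (4 * n)) = a * (4 / 3 * D * Real.exp (4 * n)) := by ring
      _ ≤ _ := h1
  exact le_of_mul_le_mul_left h3 h2

theorem step2 {n : ℕ} (a b q l : ℝ) (ha : 0 ≤ a) (hb : 0 ≤ b) (hq : 0 < q) (hl : 1 < l)
    (h : q ^ (1 - 1 / l) * b ^ (1 / l) ≤ a) (h1 : a * Real.exp (4 * n) ≤ q) :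
    b ≤ a * Real.exp (-(4 * n * (l - 1))) := by
  have hl0 : 0 < l := by linarith
  have h2 : q ^ (l - 1) * b ≤ a ^ l := by
    have h3 : (q ^ (1 - 1 / l) * b ^ (1 / l)) ^ l ≤ a ^ l :=
      Real.rpow_le_rpow (by positivity) h hl0.le
    rw [Real.mul_rpow (by positivity) (by positivity), ← Real.rpow_mul hq.le,
      ← Real.rpow_mul hb] at h3
    have e1 : (1 - 1 / l) * l = l - 1 := by field_simp
    have e2 : 1 / l * l = 1 := by field_simp
    rw [e1, e2, Real.rpow_one] at h3
    exact h3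
  have h4 : a ^ l = a * a ^ (l - 1) := by
    have : l = 1 + (l - 1) := by ring
    conv_lhs => rw [this]
    rw [Real.rpow_add_of_nonneg ha (by norm_num) (by linarith), Real.rpow_one]
  have h5 : a ≤ q * Real.exp (-(4 * n)) := by
    rw [Real.exp_neg]
    rw [← div_eq_mul_inv, le_div_iff₀ (Real.exp_pos _)]
    exact h1
  have h6 : a ^ (l - 1) ≤ q ^ (l - 1) * Real.exp (-(4 * n * (l - 1))) := by
    calc a ^ (l - 1) ≤ (q * Real.exp (-(4 * n))) ^ (l - 1) :=
          Real.rpow_le_rpow ha h5 (by linarith)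
      _ = q ^ (l - 1) * Real.exp (-(4 * n)) ^ (l - 1) :=
          Real.mul_rpow hq.le (Real.exp_pos _).le
      _ = q ^ (l - 1) * Real.exp (-(4 * n * (l - 1))) := by
          rw [← Real.exp_mul]; congr 2; ring
  have hqp : 0 < q ^ (l - 1) := Real.rpow_pos_of_pos hq _
  have h7 : q ^ (l - 1) * b ≤ q ^ (l - 1) * (a * Real.exp (-(4 * n * (l - 1)))) := by
    calc q ^ (l - 1) * b ≤ a * a ^ (l - 1) := by rw [← h4]; exact h2
      _ ≤ a * (q ^ (l - 1) * Real.exp (-(4 * n * (l - 1)))) := by gcongr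
      _ = _ := by ring
  exact le_of_mul_le_mul_left h7 hqp

theorem scale {n : ℕ} (l : ℝ) (hl : 0 < l) (g : E n → ℝ≥0∞) :
    ∫⁻ x, g x = ENNReal.ofReal (l ^ n) * ∫⁻ y, g (l • y) := by
  have h := Measure.map_addHaar_smul (volume : Measure (E n)) hl.ne'
  have hfin : Module.finrank ℝ (E n) = n := by simp
  rw [hfin] at h
  have e : MeasurableEmbedding fun y : E n => l • y :=
    (Homeomorph.smulOfNeZero l hl.ne').measurableEmbedding
  have h2 : ∫⁻ y, g (l • y) = ENNReal.ofReal |(l ^ n)⁻¹| * ∫⁻ x, g x := by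
    have h3 : ∫⁻ x, g x ∂(Measure.map (fun y : E n => l • y) volume) = ∫⁻ y, g (l • y) :=
      e.lintegral_map g
    rw [← h3]
    have h4 : Measure.map (fun y : E n => l • y) volume
        = ENNReal.ofReal |(l ^ n)⁻¹| • (volume : Measure (E n)) := h
    rw [h4, lintegral_smul_measure, smul_eq_mul]
  rw [h2, ← mul_assoc, ← ENNReal.ofReal_mul (by positivity)]
  have : l ^ n * |(l ^ n)⁻¹| = 1 := by
    rw [abs_of_pos (by positivity)]
    field_simp
  rw [this, ENNReal.ofReal_one, one_mul]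

theorem tail : S_TAIL := by
  intro n ρ hn hρ _ h1 s hs hlow hup l hl
  have hs' : 0 < Real.sqrt s := Real.sqrt_pos.2 hs
  have hl0 : 0 < l := by linarith
  have hn0 : (0 : ℝ) < n := by exact_mod_cast (by omega : 0 < n)
  have hq : 0 < ρ 0 := by
    by_contra hcon
    have hD : 0 < (2 * Real.exp 2 * Real.sqrt s) ^ n := by positivity
    have : ρ 0 * (2 * Real.exp 2 * Real.sqrt s) ^ n ≤ 0 :=
      mul_nonpos_of_nonpos_of_nonneg (not_lt.1 hcon) hD.le
    linarith
  have hpt : ∀ y : E n, 540 * Real.sqrt s * n < nm y →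
      ρ (l • y) ≤ ρ y * Real.exp (-(4 * n * (l - 1))) := by
    intro y hy
    have ha := hρ.nonneg y
    have h2 : ρ y * (2 * (540 * Real.sqrt s)) ^ n ≤ 1 := by
      refine le_trans ?_ (hup y)
      apply mul_le_mul_of_nonneg_left _ ha
      apply pow_le_pow_left₀ (by positivity)
      have : 540 * Real.sqrt s ≤ nm y / n := by
        rw [le_div_iff₀ hn0]; exact hy.le
      linarith
    have h3 := step1 hn (ρ y) (ρ 0) s ha hs hlow h2
    rcases eq_or_lt_of_le hl with h | h
    · subst h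
      simp
    · refine step2 (ρ y) (ρ (l • y)) (ρ 0) l ha (hρ.nonneg _) hq h ?_ h3
      have ht0 : 0 < 1 / l := by positivity
      have ht1 : 1 / l < 1 := by rw [div_lt_one hl0]; exact h
      have h4 := hρ.logc 0 (l • y) (1 / l) ht0 ht1
      have e : (1 - 1 / l) • (0 : E n) + (1 / l) • (l • y) = y := by
        rw [smul_zero, zero_add, smul_smul]
        have : 1 / l * l = 1 := by field_simp
        rw [this, one_smul]
      rw [e] at h4
      exact h4
  set S : Set (E n) := {x | l * (540 * Real.sqrt s) * n < nm x} with hS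
  set T : Set (E n) := {y | 540 * Real.sqrt s * n < nm y} with hT
  have hSm : MeasurableSet S := measurableSet_lt measurable_const nm_meas
  have hST : ∀ y : E n, l • y ∈ S ↔ y ∈ T := by
    intro y
    show l * (540 * Real.sqrt s) * n < nm (l • y) ↔ 540 * Real.sqrt s * n < nm y
    rw [nm_smul l hl0.le, mul_assoc, mul_lt_mul_iff_right₀ hl0]
  have e1 : mu ρ S = ∫⁻ x, S.indicator (fun x => ENNReal.ofReal (ρ x)) x := by
    unfold mu
    rw [withDensity_apply _ hSm, lintegral_indicator hSm]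
  rw [e1, scale l hl0]
  have e2 : ∫⁻ y, S.indicator (fun x => ENNReal.ofReal (ρ x)) (l • y)
      ≤ ENNReal.ofReal (Real.exp (-(4 * n * (l - 1)))) := by
    have e3 : ∀ y : E n, S.indicator (fun x => ENNReal.ofReal (ρ x)) (l • y)
        ≤ ENNReal.ofReal (Real.exp (-(4 * n * (l - 1)))) * ENNReal.ofReal (ρ y) := by
      intro y
      by_cases hy : y ∈ T
      · rw [indicator_of_mem ((hST y).2 hy), ← ENNReal.ofReal_mul (Real.exp_pos _).le]
        apply ENNReal.ofReal_le_ofReal
        rw [mul_comm]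
        exact hpt y hy
      · rw [indicator_of_notMem (fun h => hy ((hST y).1 h))]
        exact zero_le
    calc ∫⁻ y, S.indicator (fun x => ENNReal.ofReal (ρ x)) (l • y)
        ≤ ∫⁻ y : E n, ENNReal.ofReal (Real.exp (-(4 * n * (l - 1)))) * ENNReal.ofReal (ρ y) :=
          lintegral_mono e3
      _ = ENNReal.ofReal (Real.exp (-(4 * n * (l - 1)))) * ∫⁻ y : E n, ENNReal.ofReal (ρ y) := by
          rw [lintegral_const_mul]
          exact hρ.meas.ennreal_ofReal
      _ = ENNReal.ofReal (Real.exp (-(4 * n * (l - 1)))) := by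
          have : ∫⁻ y : E n, ENNReal.ofReal (ρ y) = 1 := by
            rw [← h1]; unfold mu
            rw [withDensity_apply _ MeasurableSet.univ, Measure.restrict_univ]
          rw [this, mul_one]
  calc ENNReal.ofReal (l ^ n) * ∫⁻ y, S.indicator (fun x => ENNReal.ofReal (ρ x)) (l • y)
      ≤ ENNReal.ofReal (l ^ n) * ENNReal.ofReal (Real.exp (-(4 * n * (l - 1)))) := by gcongr
    _ = ENNReal.ofReal (l ^ n * Real.exp (-(4 * n * (l - 1)))) := by
        rw [ENNReal.ofReal_mul (by positivity)]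
    _ ≤ ENNReal.ofReal (Real.exp (-(3 * n * (l - 1)))) := by
        apply ENNReal.ofReal_le_ofReal
        have h5 : l ≤ Real.exp (l - 1) := by
          have := Real.add_one_le_exp (l - 1); linarith
        calc l ^ n * Real.exp (-(4 * n * (l - 1)))
            ≤ Real.exp (l - 1) ^ n * Real.exp (-(4 * n * (l - 1))) := by gcongr
          _ = Real.exp (-(3 * n * (l - 1))) := by
              rw [← Real.exp_nat_mul, ← Real.exp_add]; congr 1; ring

end Pool.Agent.W58.SK
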